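import Pool.Agent.H97.NS.Fin

/-!
Directed polymers on `ℤ^d`, simple random walk, independent environment with exponential moments:
at almost every drift at which the free energy has a non-zero second derivative the polymer is not
subdiffusive, and the wandering exponent is between `1/2` and `3/4`.
The walk (`Step`, `pos`) and the energy are defined in `TH967/DP/Defs.lean` of the library.
-/

set_option autoImplicit false

open MeasureTheory ProbabilityTheory Filter Topology Matrix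

namespace Pool.Agent.Results.MP_7d29a1_pr.CurvedDrifts

open TH967.DP (Step pos energy)

variable {d : ℕ}

/-- The weight `exp (h · S_n + β ∑_{i=1}^n η(i, S_i))` of a walk of `n` steps in `ℤ^d`. -/
noncomputable def weight (β : ℝ) (h : Fin d → ℝ) (η : ℕ → (Fin d → ℤ) → ℝ) {n : ℕ}
    (w : Fin n → Step d) : ℝ :=
  Real.exp (∑ k, h k * (pos w n k : ℝ) + β * energy η w)

/-- `Z_n^h = E(exp (h · S_n + β ∑_{i=1}^n η(i, S_i)))`, the average over the `(2d)^n` walks. -/
noncomputable def partitionFn (β : ℝ) (h : Fin d → ℝ) (η : ℕ → (Fin d → ℤ) → ℝ) (n : ℕ) : ℝ :=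
  (∑ w : Fin n → Step d, weight β h η w) / (2 * (d : ℝ)) ^ n

/-- The polymer measure `P_n` with inverse temperature `β` and drift `h ∈ ℝ^d` in the environment
`η`. For `h = 0` it is the law of the simple random walk tilted by the environment. -/
noncomputable def polymer (β : ℝ) (h : Fin d → ℝ) (η : ℕ → (Fin d → ℤ) → ℝ) {n : ℕ}
    (A : Set (Fin n → Step d)) : ℝ :=
  (∑ w : Fin n → Step d, A.indicator (weight β h η) w) / ∑ w : Fin n → Step d, weight β h η w

/-- The walks of `n` steps with `max_{0≤i≤n} ‖S_i - i v‖ ≤ R`, with the Euclidean norm. -/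
def cylinder (n : ℕ) (v : Fin d → ℝ) (R : ℝ) : Set (Fin n → Step d) :=
  {w | ∀ i ≤ n, Real.sqrt (∑ k, ((pos w i k : ℝ) - i * v k) ^ 2) ≤ R}

/-- The wandering exponent of the polymer with drift `h` around the line of slope `v`: the infimum
of the `a > 0` such that `E (liminf_n P_n (max_{i ≤ n} ‖S_i - i v‖ ≤ n^a)) = 1`. -/
noncomputable def wander {Ω : Type*} [MeasurableSpace Ω] (P : Measure Ω)
    (ω : ℕ → (Fin d → ℤ) → Ω → ℝ) (β : ℝ) (h v : Fin d → ℝ) : ℝ :=
  sInf {a : ℝ | 0 < a ∧ ∫⁻ x, liminf (fun n : ℕ => ENNReal.ofReal (polymer β h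
    (fun i y => ω i y x) (cylinder n v ((n : ℝ) ^ a)))) atTop ∂P = 1}

/-- Let `d ≥ 1`, let `ω(i,y)` be i.i.d. with all exponential moments and `β ∈ ℝ`. Then
`(1/n) E log Z_n^h` tends to a convex function `p(h)`, and for Lebesgue almost all `h ∈ ℝ^d` there
are `v ∈ ℝ^d` and a positive semidefinite `Q` with
`p(h+t) = p(h) + v·t + (1/2) t·Qt + o(|t|^2)`; the wandering exponent of the polymer with drift `h`
around the line of slope `v` is at most `3/4`; and if `Q ≠ 0`, then it is at least `1/2`, and for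
every `δ > 0` there is `ε > 0` such that `E P_n(‖S_n - n v‖ ≤ ε √n) < δ` for infinitely many
`n`. -/
theorem result (hd : 1 ≤ d) {Ω : Type*} [MeasurableSpace Ω] (P : Measure Ω)
    [IsProbabilityMeasure P] (ω : ℕ → (Fin d → ℤ) → Ω → ℝ) (hmeas : ∀ i y, Measurable (ω i y))
    (hindep : iIndepFun (fun s : ℕ × (Fin d → ℤ) => ω s.1 s.2) P)
    (hident : ∀ i y, IdentDistrib (ω i y) (ω 1 0) P P)
    (hexp : ∀ b : ℝ, Integrable (fun x => Real.exp (b * ω 1 0 x)) P) (β : ℝ) :
    ∃ p : (Fin d → ℝ) → ℝ, ConvexOn ℝ Set.univ p ∧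
      (∀ h : Fin d → ℝ, Tendsto (fun n : ℕ =>
        (∫ x, Real.log (partitionFn β h (fun i y => ω i y x) n) ∂P) / n) atTop (𝓝 (p h))) ∧
      ∀ᵐ h : Fin d → ℝ, ∃ (v : Fin d → ℝ) (Q : Matrix (Fin d) (Fin d) ℝ), Q.PosSemidef ∧
        (∀ ε : ℝ, 0 < ε → ∃ δ : ℝ, 0 < δ ∧ ∀ t : Fin d → ℝ, ∑ k, t k ^ 2 ≤ δ ^ 2 →
          |p (h + t) - (p h + ∑ k, v k * t k + 1 / 2 * (t ⬝ᵥ Q.mulVec t))| ≤ ε * ∑ k, t k ^ 2) ∧
        wander P ω β h v ≤ 3 / 4 ∧
        (Q ≠ 0 → 1 / 2 ≤ wander P ω β h v ∧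
          ∀ δ : ℝ, 0 < δ → ∃ ε : ℝ, 0 < ε ∧ ∃ᶠ n : ℕ in atTop,
            ∫ x, polymer β h (fun i y => ω i y x)
              {w : Fin n → Step d | Real.sqrt (∑ k, ((pos w n k : ℝ) - n * v k) ^ 2) ≤
                ε * Real.sqrt n} ∂P < δ) := by
  have : NeZero d := ⟨by omega⟩
  exact Pool.Agent.H97.NS.part_C (P := P) (ω := ω) ⟨hmeas, hindep, hident⟩ hexp β

end Pool.Agent.Results.MP_7d29a1_pr.CurvedDrifts
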