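import Pool.Agent.H97.NS.Fin
import Pool.Agent.H97.NS.DimGen

/-!
Directed polymers on `ℤ^d`, simple random walk, in an arbitrary (possibly dependent) random
environment: subdiffusive slopes are rare.
The walk (`Step`, `pos`) and the energy are defined in `TH967/DP/Defs.lean` of the library.
-/

set_option autoImplicit false

open MeasureTheory ProbabilityTheory Filter Topology

namespace Pool.Agent.Results.MP_7d29a1_pr.EveryEnvironment

open TH967.DP (Step pos energy)

variable {d : ℕ}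

/-- The weight `exp (h · S_n + β ∑_{i=1}^n η(i, S_i))` of a walk of `n` steps in `ℤ^d`. -/
noncomputable def weight (β : ℝ) (h : Fin d → ℝ) (η : ℕ → (Fin d → ℤ) → ℝ) {n : ℕ}
    (w : Fin n → Step d) : ℝ :=
  Real.exp (∑ k, h k * (pos w n k : ℝ) + β * energy η w)

/-- The polymer measure `P_n` with inverse temperature `β` and drift `h ∈ ℝ^d` in the environment
`η`. For `h = 0` it is the law of the simple random walk tilted by the environment. -/
noncomputable def polymer (β : ℝ) (h : Fin d → ℝ) (η : ℕ → (Fin d → ℤ) → ℝ) {n : ℕ}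
    (A : Set (Fin n → Step d)) : ℝ :=
  (∑ w : Fin n → Step d, A.indicator (weight β h η) w) / ∑ w : Fin n → Step d, weight β h η w

/-- The walks of `n` steps with `max_{0≤i≤n} ‖S_i - i v‖ ≤ R`, with the Euclidean norm. -/
def cylinder (n : ℕ) (v : Fin d → ℝ) (R : ℝ) : Set (Fin n → Step d) :=
  {w | ∀ i ≤ n, Real.sqrt (∑ k, ((pos w i k : ℝ) - i * v k) ^ 2) ≤ R}

/-- The wandering exponent of the polymer with drift `h` around the line of slope `v`: the infimum
of the `a > 0` such that `E (liminf_n P_n (max_{i ≤ n} ‖S_i - i v‖ ≤ n^a)) = 1`. -/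
noncomputable def wander {Ω : Type*} [MeasurableSpace Ω] (P : Measure Ω)
    (ω : ℕ → (Fin d → ℤ) → Ω → ℝ) (β : ℝ) (h v : Fin d → ℝ) : ℝ :=
  sInf {a : ℝ | 0 < a ∧ ∫⁻ x, liminf (fun n : ℕ => ENNReal.ofReal (polymer β h
    (fun i y => ω i y x) (cylinder n v ((n : ℝ) ^ a)))) atTop ∂P = 1}

/-- Let `d ≥ 1`, let `ω(i,y)` be any random variables (no independence, stationarity or moment
condition) and `β ∈ ℝ`. (1) For `0 ≤ κ < 1` the set of the `v ∈ ℝ^d` such that for some drift
`h ∈ ℝ^d` the wandering exponent around the line of slope `v` is at most `κ` has Hausdorff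
dimension at most `d κ / (1 - κ)`. (2) For Lebesgue almost all slopes `v ∈ ℝ^d` and all drifts
`h ∈ ℝ^d` there is `ε > 0` such that `E P_n(‖S_n - n v‖ ≤ ε √n)` does not tend to `1`. -/
theorem result (hd : 1 ≤ d) {Ω : Type*} [MeasurableSpace Ω] (P : Measure Ω)
    [IsProbabilityMeasure P] (ω : ℕ → (Fin d → ℤ) → Ω → ℝ) (hmeas : ∀ i y, Measurable (ω i y))
    (β : ℝ) :
    (∀ κ : ℝ, 0 ≤ κ → κ < 1 → dimH {v : Fin d → ℝ | ∃ h, wander P ω β h v ≤ κ} ≤
      ENNReal.ofReal (d * (κ / (1 - κ)))) ∧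
    ∀ᵐ v : Fin d → ℝ, ∀ h : Fin d → ℝ, ∃ ε : ℝ, 0 < ε ∧
      ¬ Tendsto (fun n : ℕ => ∫ x, polymer β h (fun i y => ω i y x)
        {w : Fin n → Step d | Real.sqrt (∑ k, ((pos w n k : ℝ) - n * v k) ^ 2) ≤
          ε * Real.sqrt n} ∂P) atTop (𝓝 1) := by
  have : NeZero d := ⟨by omega⟩
  refine ⟨fun κ h0 h1 => Pool.Agent.H97.NS.wander_dim (P := P) hmeas β h0 h1, ?_⟩
  obtain ⟨N, hN, H⟩ := Pool.Agent.H97.NS.part_A (P := P) (ω := ω) hmeas β
  rw [ae_iff]
  refine measure_mono_null ?_ hN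
  intro v hv
  by_contra hvN
  exact hv fun h => (H v hvN h).2

end Pool.Agent.Results.MP_7d29a1_pr.EveryEnvironment
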