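import Pool.Agent.H97.NS.DimFin

/-!
Directed polymers on `ℤ^d`, simple random walk, independent environment with any non-constant law,
positive temperature: a bound for the Hausdorff dimension of the set of the slopes around which the
polymer (with any drift) has a wandering exponent at most `κ`.
The walk (`Step`, `pos`) and the energy are defined in `TH967/DP/Defs.lean` of the library.
-/

set_option autoImplicit false

open MeasureTheory ProbabilityTheory Filter Topology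

namespace Pool.Agent.Results.MP_7d29a1_pr.ExceptionalSlopes

open TH967.DP (Step pos energy)

variable {d : ℕ}

/-- The weight `exp (h · S_n + β ∑_{i=1}^n η(i, S_i))` of a walk of `n` steps in `ℤ^d`. -/
noncomputable def weight (β : ℝ) (h : Fin d → ℝ) (η : ℕ → (Fin d → ℤ) → ℝ) {n : ℕ}
    (w : Fin n → Step d) : ℝ :=
  Real.exp (∑ k, h k * (pos w n k : ℝ) + β * energy η w)

/-- The polymer measure `P_n` with inverse temperature `β` and drift `h ∈ ℝ^d` in the environment
`η`. For `h = 0` it is the law of the simple random walk tilted by the environment. -/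
noncomputable def polymer (β : ℝ) (h : Fin d → ℝ) (η : ℕ → (Fin d → ℤ) → ℝ) {n : ℕ}
    (A : Set (Fin n → Step d)) : ℝ :=
  (∑ w : Fin n → Step d, A.indicator (weight β h η) w) / ∑ w : Fin n → Step d, weight β h η w

/-- The walks of `n` steps with `max_{0≤i≤n} ‖S_i - i v‖ ≤ R`, with the Euclidean norm. -/
def cylinder (n : ℕ) (v : Fin d → ℝ) (R : ℝ) : Set (Fin n → Step d) :=
  {w | ∀ i ≤ n, Real.sqrt (∑ k, ((pos w i k : ℝ) - i * v k) ^ 2) ≤ R}

/-- The wandering exponent of the polymer with drift `h` around the line of slope `v`: the infimum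
of the `a > 0` such that `E (liminf_n P_n (max_{i ≤ n} ‖S_i - i v‖ ≤ n^a)) = 1`. -/
noncomputable def wander {Ω : Type} [MeasurableSpace Ω] (P : Measure Ω)
    (ω : ℕ → (Fin d → ℤ) → Ω → ℝ) (β : ℝ) (h v : Fin d → ℝ) : ℝ :=
  sInf {a : ℝ | 0 < a ∧ ∫⁻ x, liminf (fun n : ℕ => ENNReal.ofReal (polymer β h
    (fun i y => ω i y x) (cylinder n v ((n : ℝ) ^ a)))) atTop ∂P = 1}

/-- Let `d ≥ 1`, let `ω(i,y)` be i.i.d. with any non-constant law and `β > 0`. For `0 ≤ κ < 1` the
set of the `v ∈ ℝ^d` such that for some drift `h ∈ ℝ^d` the wandering exponent around the line of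
slope `v` is at most `κ` has Hausdorff dimension at most
`d · min (κ/(1-κ), max (0, ((d+2)κ-1)/(2(1-κ))))`. For `κ < 1/2` it is a Lebesgue null set. -/
theorem result (hd : 1 ≤ d) {Ω : Type} [MeasurableSpace Ω] (P : Measure Ω)
    [IsProbabilityMeasure P] (ω : ℕ → (Fin d → ℤ) → Ω → ℝ) (hmeas : ∀ i y, Measurable (ω i y))
    (hindep : iIndepFun (fun s : ℕ × (Fin d → ℤ) => ω s.1 s.2) P)
    (hident : ∀ i y, IdentDistrib (ω i y) (ω 1 0) P P)
    (hnc : ¬ ∃ c : ℝ, ∀ᵐ x ∂P, ω 1 0 x = c) (β : ℝ) (hβ : 0 < β) :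
    (∀ κ : ℝ, 0 ≤ κ → κ < 1 → dimH {v : Fin d → ℝ | ∃ h, wander P ω β h v ≤ κ} ≤
      ENNReal.ofReal (d * min (κ / (1 - κ)) (max 0 (((d + 2) * κ - 1) / (2 * (1 - κ)))))) ∧
    ∀ᵐ v : Fin d → ℝ, ∀ h : Fin d → ℝ, 1 / 2 ≤ wander P ω β h v := by
  have he : Pool.Agent.N662.SE.IsEnv P ω := ⟨hmeas, hindep, hident⟩
  have h1 : ∀ κ : ℝ, 0 ≤ κ → κ < 1 → dimH {v : Fin d → ℝ | ∃ h, wander P ω β h v ≤ κ} ≤
      ENNReal.ofReal (d * min (κ / (1 - κ)) (max 0 (((d + 2) * κ - 1) / (2 * (1 - κ))))) :=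
    fun κ h0 h1 => Pool.Agent.H97.NS.iid_both hd he hnc hβ h0 h1
  refine ⟨h1, ?_⟩
  have : NeZero d := ⟨by omega⟩
  obtain ⟨N, hN, H⟩ := Pool.Agent.H97.NS.gen_main (P := P) (ω := ω) hmeas β
  rw [ae_iff]
  refine measure_mono_null ?_ hN
  intro v hv
  by_contra hvN
  exact hv fun h => (H v hvN h).2

end Pool.Agent.Results.MP_7d29a1_pr.ExceptionalSlopes
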